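import Pool.Agent.HIK.Stmts

/-! HIK, module EXO: a closed subgroup of `GT` which does not contain the Galois group of `φ(K)(t)`
fixes an element with an admissible equation, up to the Galois group of `φ(K)(t)`. -/

set_option autoImplicit false

namespace Pool.Agent.HIK.H84

open Polynomial NumberField Pool.Agent.MTL Pool.Agent.HIK

/-- the field `φ(K)(t)` -/
noncomputable abbrev EE {K : Type} [Field K] (φ : K →+* Om) : IntermediateField (RatFunc ℚ) Om :=
  IntermediateField.adjoin (RatFunc ℚ) (Set.range φ)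

theorem gph_le {K : Type} [Field K] (φ : K →+* Om) : Gph φ ≤ (EE φ).fixingSubgroup := by
  rw [← IntermediateField.le_iff_le, IntermediateField.adjoin_le_iff]
  rintro _ ⟨c, rfl⟩
  intro σ
  exact σ.2 c

theorem tt_mem {K : Type} [Field K] (φ : K →+* Om) : tt ∈ EE φ := by
  have h : tt = algebraMap (RatFunc ℚ) Om (algebraMap ℚ[X] (RatFunc ℚ) X) := by
    unfold tt
    rw [← IsScalarTower.algebraMap_apply]
  rw [h]
  exact (EE φ).algebraMap_mem _

theorem phi_mem {K : Type} [Field K] (φ : K →+* Om) (c : K) : φ c ∈ EE φ :=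
  IntermediateField.subset_adjoin _ _ ⟨c, rfl⟩

/-- the polynomials over `K` in `φ(K)(t)` -/
noncomputable def kph {K : Type} [Field K] (φ : K →+* Om) : K[X] →+* EE φ :=
  eval₂RingHom (φ.codRestrict (EE φ).toSubfield (phi_mem φ)) ⟨tt, tt_mem φ⟩

theorem kph_coe {K : Type} [Field K] [NumberField K] (φ : K →+* Om) (P : (𝓞 K)[X]) :
    ((kph φ (P.map (algebraMap (𝓞 K) K)) : EE φ) : Om) = zph φ P := by
  have h : ((EE φ).val : EE φ →+* Om).comp ((kph φ).comp (mapRingHom (algebraMap (𝓞 K) K))) = zph φ := by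
    refine Polynomial.ringHom_ext (fun a => ?_) ?_
    · simp only [RingHom.comp_apply, coe_mapRingHom, map_C, kph, coe_eval₂RingHom, eval₂_C, zph]
      rfl
    · simp only [RingHom.comp_apply, coe_mapRingHom, map_X, kph, coe_eval₂RingHom, eval₂_X, zph]
      rfl
  exact RingHom.congr_fun h P

theorem gph_zph {K : Type} [Field K] [NumberField K] (φ : K →+* Om) (σ : GT) (hσ : σ ∈ Gph φ)
    (P : (𝓞 K)[X]) : σ (zph φ P) = zph φ P := by
  rw [← kph_coe]
  exact gph_le φ hσ _

/-- module EXO -/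
theorem exo (hAlg : AlgStmt) (hFrk : FrkStmt) (hGpf : GpfStmt) : ExoStmt := by
  intro K _ _ φ H hH hle
  obtain ⟨hinj, hmem⟩ := hFrk K φ
  obtain ⟨-, hcl, -⟩ := hGpf K φ
  let A := (𝓞 K)[X]
  let E := EE φ
  have hc : IsClosed ((H ⊓ Gph φ : Subgroup GT) : Set GT) := by
    rw [Subgroup.coe_inf]
    exact hH.inter hcl
  have h1 : ¬ IntermediateField.fixedField (H ⊓ Gph φ) ≤ E := by
    intro h
    apply hle
    have h2 := InfiniteGalois.fixingSubgroup_fixedField (k := RatFunc ℚ) (K := Om) ⟨H ⊓ Gph φ, hc⟩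
    change (IntermediateField.fixedField (H ⊓ Gph φ)).fixingSubgroup = H ⊓ Gph φ at h2
    have h3 := (gph_le φ).trans (IntermediateField.fixingSubgroup_le h)
    rw [h2] at h3
    exact h3.trans inf_le_left
  obtain ⟨y, hyD, hy⟩ := SetLike.not_le_iff_exists.1 h1
  let alg1 : Algebra A E := ((kph φ).comp (mapRingHom (algebraMap (𝓞 K) K))).toAlgebra
  let alg2 : Algebra A Om := (zph φ).toAlgebra
  have hmap : ∀ P : A, ((algebraMap A E P : E) : Om) = zph φ P := fun P => kph_coe φ P
  have tower : @IsScalarTower A E Om alg1.toSMul _ alg2.toSMul :=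
    @IsScalarTower.of_algebraMap_eq A E Om _ _ _ alg1 _ alg2 fun P => (hmap P).symm
  have hf : FaithfulSMul A E := by
    rw [faithfulSMul_iff_algebraMap_injective]
    intro P Q h
    apply hinj
    rw [← hmap, ← hmap, h]
  have hfr : IsFractionRing A E := by
    refine IsFractionRing.of_field A E fun z => ?_
    obtain ⟨F, G, -, hz⟩ := (hmem z).1 z.2
    refine ⟨F, G, ?_⟩
    apply Subtype.ext
    rw [hz, ← hmap, ← hmap]
    rfl
  have hch : CharZero E := inferInstance
  have hyalg : IsAlgebraic E y :=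
    (Algebra.IsAlgebraic.isAlgebraic (R := RatFunc ℚ) y).tower_top E
  obtain ⟨s, g, hs, hm, hg, hroot, P, Q, r, hr, hPQ⟩ := hAlg A E Om y hyalg (by
    rintro ⟨z, rfl⟩
    exact hy z.2)
  refine ⟨zph φ s * y, g, ⟨hm, ?_, P, Q, r, hr, hPQ⟩, hg, ?_⟩
  · intro P hP
    apply hroot (kph φ P)
    have h4 : g.map (algebraMap A E) = (toK K g).map (kph φ) := by
      rw [toK, Polynomial.map_map]
      rfl
    rw [h4, eval_map, eval₂_at_apply, hP, map_zero]
  · intro σ hσH hσ
    rw [map_mul, gph_zph φ σ hσ]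
    congr 1
    exact hyD ⟨σ, hσH, hσ⟩

end Pool.Agent.HIK.H84
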